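import Pool.Agent.K3h1.FC.Reg3
import Pool.Agent.K3h1.FC.Dbl4
import Pool.Agent.K3h16.FC.RAT

/-!
# The first case of Fermat's last theorem for the Brauer-Manin sets of the Fermat curves

Let `p ≥ 5` be a prime number, `F` the Fermat curve `x ^ p + y ^ p + z ^ p = 0` over `ℚ`, and `E` the
`p`-th cyclotomic field. The lines `x + ξ y = 0`, `ξ ^ p = 1`, are tangents of `F` with contact of
order `p` at the points `z = 0`, and so `x + ξ y = w_ξ ^ p`, `-z = ∏ w_ξ` is an abelian etale covering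
of `F` over `E`; with it there are its twists `x + ξ y = δ_ξ w_ξ ^ p`, `-z = D ∏ w_ξ` with
`∏ δ_ξ = D ^ p`, and the two coverings which arise from a cyclic permutation of the coordinates.
Let `S` be the set of all adelic points `v` of `F` (families of points over the fields `ℚ_r`) which
for each of these three coverings lift to a twist (`Survives`), that is to points of one and the same
twist over the algebras `ℚ_r ⊗ E` for all prime numbers `r`. According to Stoll (2007) the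
Brauer-Manin set of a curve is the set of the adelic points that survive all abelian coverings; a
point of the Brauer-Manin set of `F` over `ℚ` is one over `E` too, and hence `S` contains the
projection `pr^∞ (F(𝔸)^Br)` of the Brauer-Manin set to the finite places. The theorem holds for `S`
and so, all the more, for the Brauer-Manin set. It says:

* the rational points are in `S`;
* (first case) if `2 ^ (p - 1)` or `3 ^ (p - 1)` is not `1` modulo `p ^ 2`, or if `p` does not divide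
  the numerator of the Bernoulli number `B_{p-3}`, or if `p` is regular, or if the index of
  irregularity `i` satisfies `(i + 1) (i + 2) + 3 ≤ p`, then for every `v ∈ S` the point `v_p` is in
  the residue disc of one of the rational points `(0 : 1 : -1)`, `(-1 : 0 : 1)`, `(1 : -1 : 0)`;
* if `r ≠ p` is a prime number with `r ^ (p - 1)` not `1` modulo `p ^ 2` and `v_r` reduces to a point
  with `k`-th coordinate zero, then `v_p` is in the residue disc of the rational point with `k`-th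
  coordinate zero;
* for `r = 2` and `r = 3` with this property `v_r` and `v_p` are in the residue discs of the same
  rational point;
* if `p` is regular then for every `v ∈ S` there is a rational point `c_j` such that `v_p` is in the
  residue disc of `c_j` and for each of the three coverings `v` and `c_j` lift to the same twist: the
  descent by these coverings does not distinguish `v` from a rational point;
* let `C` be the double covering
  `w ^ 2 = α x ^ 3 y ^ 3 + β y ^ 3 z ^ 3 + γ z ^ 3 x ^ 3 + δ x ^ 2 y ^ 2 z ^ 2` of `F`, with integers `α`,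
  `β`, `γ`, `δ` such that `β` and `γ` are divisible by `p` exactly once. Assume (a) one of the conditions
  of the first case, and that `-α` is not a square modulo `p`, or (b) that for a prime number `r ≠ p`
  with `r ^ (p - 1)` not `1` modulo `p ^ 2` the number `r` divides `α` exactly once and divides `β` and
  `γ`, and that `r = 2` or `δ` is not a square modulo `r`. Then `C` has no adelic point over `S`. So
  the Brauer-Manin set of `C` is empty, and Stoll's conjecture holds for `C`. In case (b) every `r`-adic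
  point of `C` is near `x = 0` or `y = 0`, so that the `p`-adic component must be near the rational point
  with `x = 0` or with `y = 0`, but the `p`-adic points of `C` are not there;
* for every prime number `p ≥ 5`, without any further condition on `p`, there are infinitely many such
  coverings `C` of type (b) which have (smooth) points over all completions of `ℚ`: counterexamples to the
  Hasse principle which are explained by the Brauer-Manin obstruction. They are geometrically integral: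
  if the form were a square on `F` then the square of a cubic form `G`, modulo the equation of `F`; for
  `p ≥ 7` the form would be equal to `G ^ 2`, but it is `α x ^ 3 y ^ 3` for `z = 0`; and for `p = 5` the
  polynomial `G (1, t, 0)` of degree `≤ 3` would be equal to `± √(-α) (-t) ^ 4` at the five roots `t` of
  `t ^ 5 = -1`, and then the sum of five signs `± 1` would be zero.
-/

set_option autoImplicit false

namespace Pool.Agent.Results.MP_308fa9_nt.FermatCurves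

open Polynomial Pool.Agent.Y546.WQ Pool.Agent.K3h1.FC

/-- One of the classical criteria (Wieferich, Mirimanoff, Krasner, Eichler, Kummer) for the first
case of Fermat's last theorem: `2 ^ (p - 1)` or `3 ^ (p - 1)` is not `1` modulo `p ^ 2`, or `p` does
not divide the numerator of the Bernoulli number with index `p - 3`, or the number `i` of the even
indices `2 ≤ k ≤ p - 3` for which `p` divides the numerator of the Bernoulli number with index `k`
satisfies `(i + 1) (i + 2) + 3 ≤ p`, or the class number of the `p`-th cyclotomic field is prime to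
`p`. -/
def Criterion (p : ℕ) [Fact p.Prime] : Prop :=
  ¬ p ^ 2 ∣ 2 ^ (p - 1) - 1 ∨ ¬ p ^ 2 ∣ 3 ^ (p - 1) - 1 ∨ ¬ (p : ℤ) ∣ (_root_.bernoulli (p - 3)).num ∨
    ((irr p).card + 1) * ((irr p).card + 2) + 3 ≤ p ∨
    (NumberField.classNumber (CyclotomicField p ℚ)).Coprime p

/-- the form `α x³ y³ + β y³ z³ + γ z³ x³ + δ x² y² z²` -/
def sextic (α β γ δ : ℤ) {R : Type} [CommRing R] (u : Fin 3 → R) : R :=
  α * (u 0 ^ 3 * u 1 ^ 3) + β * (u 1 ^ 3 * u 2 ^ 3) + γ * (u 2 ^ 3 * u 0 ^ 3) +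
    δ * (u 0 ^ 2 * u 1 ^ 2 * u 2 ^ 2)

/-- coordinates of the three rational points `(0 : 1 : -1)`, `(-1 : 0 : 1)`, `(1 : -1 : 0)` of the
Fermat curve -/
def cusp : Fin 3 → Fin 3 → ℚ := ![![0, 1, -1], ![-1, 0, 1], ![1, -1, 0]]

theorem result (p : ℕ) [hp : Fact p.Prime] (h5 : 5 ≤ p) :
    (∀ u : Fin 3 → ℚ, u ≠ 0 → u 0 ^ p + u 1 ^ p + u 2 ^ p = 0 →
      IsAdelicPoint p (fun _ i => (u i : ℚ_[_])) ∧
      ∀ k, Survives p (CyclotomicField p ℚ) (fun _ i => (u i : ℚ_[_])) k) ∧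
    (∀ v, IsAdelicPoint p v → (∀ k, Survives p (CyclotomicField p ℚ) v k) →
      (Criterion p → ∃ k, Red (v ⟨p, hp.out⟩) k) ∧
      (∀ r : Nat.Primes, (r : ℕ) ≠ p → ¬ p ^ 2 ∣ (r : ℕ) ^ (p - 1) - 1 →
        ∀ k, ‖v r k‖ < ‖v r (k + 1)‖ → Red (v ⟨p, hp.out⟩) k) ∧
      ∀ r : Nat.Primes, (r : ℕ) = 2 ∨ (r : ℕ) = 3 → ¬ p ^ 2 ∣ (r : ℕ) ^ (p - 1) - 1 →
        ∃ k, Red (v r) k ∧ Red (v ⟨p, hp.out⟩) k) ∧
    ((NumberField.classNumber (CyclotomicField p ℚ)).Coprime p →
      ∀ v, IsAdelicPoint p v → (∀ k, Survives p (CyclotomicField p ℚ) v k) →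
      ∃ j, Red (v ⟨p, hp.out⟩) j ∧ ∀ k, ∃ δ D, IsTwist p (CyclotomicField p ℚ) δ D ∧
        (∀ r : Nat.Primes, Lifts p r (CyclotomicField p ℚ) δ D (v r (k + 1)) (v r (k + 2)) (v r k)) ∧
        ∀ r : Nat.Primes, Lifts p r (CyclotomicField p ℚ) δ D (cusp j (k + 1) : ℚ_[r])
          (cusp j (k + 2) : ℚ_[r]) (cusp j k : ℚ_[r])) ∧
    (∀ α β γ δ : ℤ, (p : ℤ) ∣ β → ¬ (p : ℤ) ^ 2 ∣ β → (p : ℤ) ∣ γ → ¬ (p : ℤ) ^ 2 ∣ γ →
      (Criterion p ∧ ¬ IsSquare ((-α : ℤ) : ZMod p) ∨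
        ∃ r : ℕ, r.Prime ∧ r ≠ p ∧ ¬ p ^ 2 ∣ r ^ (p - 1) - 1 ∧ (r : ℤ) ∣ α ∧ ¬ (r : ℤ) ^ 2 ∣ α ∧
          (r : ℤ) ∣ β ∧ (r : ℤ) ∣ γ ∧ (r = 2 ∨ ¬ IsSquare (δ : ZMod r))) →
      ∀ v, IsAdelicPoint p v → (∀ r, ∃ w, w ^ 2 = sextic α β γ δ (v r)) →
        ∃ k, ¬ Survives p (CyclotomicField p ℚ) v k) ∧
    ∀ M : ℤ, ∃ α β γ δ : ℤ, M < |α| ∧
      (∀ (q : ℕ) [Fact q.Prime], ∃ (u : Fin 3 → ℚ_[q]) (w : ℚ_[q]), u ≠ 0 ∧ w ≠ 0 ∧
        u 0 ^ p + u 1 ^ p + u 2 ^ p = 0 ∧ w ^ 2 = sextic α β γ δ u) ∧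
      (∃ (u : Fin 3 → ℝ) (w : ℝ), u ≠ 0 ∧ w ≠ 0 ∧ u 0 ^ p + u 1 ^ p + u 2 ^ p = 0 ∧
        w ^ 2 = sextic α β γ δ u) ∧
      ∀ v, IsAdelicPoint p v → (∀ r, ∃ w, w ^ 2 = sextic α β γ δ (v r)) →
        ∃ k, ¬ Survives p (CyclotomicField p ℚ) v k := by
  have hpp : p.Prime := hp.out
  have hp2 : p ≠ 2 := by omega
  have hodd : Odd p := hpp.odd_of_ne_two hp2
  -- the cyclotomic field
  have hcyc : @IsCyclotomicExtension {p} ℚ (CyclotomicField p ℚ) _ _
      DivisionRing.toRatAlgebra := by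
    have : NeZero p := ⟨hpp.ne_zero⟩
    have : NeZero ((p : ℕ) : ℚ) := ⟨by exact_mod_cast hpp.ne_zero⟩
    have h := CyclotomicField.isCyclotomicExtension p ℚ
    have e : (DivisionRing.toRatAlgebra : Algebra ℚ (CyclotomicField p ℚ)) =
        CyclotomicField.algebra p ℚ := Subsingleton.elim _ _
    rw [e]
    exact h
  obtain ⟨c⟩ := Pool.Agent.Y978.WQ.cyc_aux p (CyclotomicField p ℚ) (hC := hcyc) hp2
  -- the reductions
  have hB : ∀ v, IsAdelicPoint p v → (∀ k, Survives p (CyclotomicField p ℚ) v k) →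
      (Criterion p → ∃ k, Red (v ⟨p, hp.out⟩) k) ∧
      (∀ r : Nat.Primes, (r : ℕ) ≠ p → ¬ p ^ 2 ∣ (r : ℕ) ^ (p - 1) - 1 →
        ∀ k, ‖v r k‖ < ‖v r (k + 1)‖ → Red (v ⟨p, hp.out⟩) k) ∧
      ∀ r : Nat.Primes, (r : ℕ) = 2 ∨ (r : ℕ) = 3 → ¬ p ^ 2 ∣ (r : ℕ) ^ (p - 1) - 1 →
        ∃ k, Red (v r) k ∧ Red (v ⟨p, hp.out⟩) k := by
    intro v hv hs
    obtain ⟨s, hs0, hT⟩ := exists_tri hv hs
    have hnml : ∀ r : Nat.Primes, Nml p (s r * v r 0) (s r * v r 1) (s r * v r 2) := by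
      obtain ⟨δ, D, hD⟩ := hT.z2
      exact hD.nml
    have hp1 := (hnml ⟨p, hp.out⟩).sum_all
    have hred : ∀ k, ‖s ⟨p, hp.out⟩ * v ⟨p, hp.out⟩ k‖ < 1 → Red (v ⟨p, hp.out⟩) k := fun k hk =>
      red_of_small hpp.ne_zero (hs0 _) (hnml _) hp1 k hk
    -- Furtwängler
    have hF : ∀ r : Nat.Primes, (r : ℕ) ≠ p → ¬ p ^ 2 ∣ (r : ℕ) ^ (p - 1) - 1 →
        ∀ k, ‖s r * v r k‖ < 1 → ‖s ⟨p, hp.out⟩ * v ⟨p, hp.out⟩ k‖ < 1 := by
      intro r hrp hW k hk
      fin_cases k
      · exact hT.furt h5 c r hrp hW hk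
      · exact hT.rot.furt h5 c r hrp hW hk
      · exact hT.rot.rot.furt h5 c r hrp hW hk
    have h23 : ∀ r : Nat.Primes, (r : ℕ) = 2 ∨ (r : ℕ) = 3 → ¬ p ^ 2 ∣ (r : ℕ) ^ (p - 1) - 1 →
        ∃ k, Red (v r) k ∧ Red (v ⟨p, hp.out⟩) k := by
      intro r hr hW
      have hrp : (r : ℕ) ≠ p := by omega
      have hex : (∃ k, ‖s r * v r k‖ < 1) ∧
          ‖s r * v r 0 + s r * v r 1 + s r * v r 2‖ < 1 := by
        rcases hr with hr | hr
        · obtain ⟨r, hrP⟩ := r
          simp only at hr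
          subst hr
          refine ⟨?_, (hnml ⟨2, hrP⟩).sum_res (pow_two_res hpp.ne_zero)⟩
          rcases (hnml ⟨2, hrP⟩).two hpp.ne_zero with h | h | h
          · exact ⟨0, h⟩
          · exact ⟨1, h⟩
          · exact ⟨2, h⟩
        · have h3 : ¬ p ^ 2 ∣ 3 ^ (p - 1) - 1 := by rwa [hr] at hW
          have h4 := hT.three h5 c r hr h3
          refine ⟨?_, ?_⟩
          · rcases h4 with h | h | h
            · exact ⟨0, h⟩
            · exact ⟨1, h⟩
            · exact ⟨2, h⟩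
          · obtain ⟨r, hrP⟩ := r
            simp only at hr
            subst hr
            exact (hnml ⟨3, hrP⟩).sum_res (pow_three_res hodd)
      obtain ⟨⟨k, hk⟩, hsum⟩ := hex
      exact ⟨k, red_of_small hpp.ne_zero (hs0 _) (hnml _) hsum k hk, hred k (hF r hrp hW k hk)⟩
    refine ⟨?_, ?_, h23⟩
    · intro hcrit
      rcases hcrit with h | h | h | h | h
      · obtain ⟨k, _, hk⟩ := h23 ⟨2, Nat.prime_two⟩ (Or.inl rfl) h
        exact ⟨k, hk⟩
      · obtain ⟨k, _, hk⟩ := h23 ⟨3, Nat.prime_three⟩ (Or.inr rfl) h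
        exact ⟨k, hk⟩
      · rcases hT.first h5 c (Or.inl (fun hi => h (by
          unfold irr at hi
          exact (Finset.mem_filter.1 hi).2.2.2.2))) with h1 | h1 | h1
        · exact ⟨0, hred 0 h1⟩
        · exact ⟨1, hred 1 h1⟩
        · exact ⟨2, hred 2 h1⟩
      · rcases hT.first h5 c (Or.inr h) with h1 | h1 | h1
        · exact ⟨0, hred 0 h1⟩
        · exact ⟨1, hred 1 h1⟩
        · exact ⟨2, hred 2 h1⟩
      · rcases hT.first_reg h h5 c with h1 | h1 | h1
        · exact ⟨0, hred 0 h1⟩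
        · exact ⟨1, hred 1 h1⟩
        · exact ⟨2, hred 2 h1⟩
    · intro r hrp hW k hk
      exact hred k (hF r hrp hW k (small_of_lt (hs0 r) (hnml r) k hk))
  -- the double coverings
  have hD : ∀ α β γ δ : ℤ, (p : ℤ) ∣ β → ¬ (p : ℤ) ^ 2 ∣ β → (p : ℤ) ∣ γ → ¬ (p : ℤ) ^ 2 ∣ γ →
      (Criterion p ∧ ¬ IsSquare ((-α : ℤ) : ZMod p) ∨
        ∃ r : ℕ, r.Prime ∧ r ≠ p ∧ ¬ p ^ 2 ∣ r ^ (p - 1) - 1 ∧ (r : ℤ) ∣ α ∧ ¬ (r : ℤ) ^ 2 ∣ α ∧
          (r : ℤ) ∣ β ∧ (r : ℤ) ∣ γ ∧ (r = 2 ∨ ¬ IsSquare (δ : ZMod r))) →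
      ∀ v, IsAdelicPoint p v → (∀ r, ∃ w, w ^ 2 = sextic α β γ δ (v r)) →
        ∃ k, ¬ Survives p (CyclotomicField p ℚ) v k := by
    intro α β γ δ hβ1 hβ2 hγ1 hγ2 hor v hv hF
    by_contra hcon
    push Not at hcon
    obtain ⟨s, hs0, hT⟩ := exists_tri hv hcon
    have hnml : ∀ r : Nat.Primes, Nml p (s r * v r 0) (s r * v r 1) (s r * v r 2) := by
      obtain ⟨δ, D, hD⟩ := hT.z2
      exact hD.nml
    have hFs : ∀ r : Nat.Primes, ∃ w : ℚ_[(r : ℕ)],
        w ^ 2 = sx α β γ δ (s r * v r 0) (s r * v r 1) (s r * v r 2) := by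
      intro r
      obtain ⟨w, hw⟩ := hF r
      refine ⟨s r ^ 3 * w, ?_⟩
      have e : (s r ^ 3 * w) ^ 2 = s r ^ 6 * w ^ 2 := by ring
      rw [e, hw]
      unfold sextic sx
      ring
    rcases hor with ⟨hcr, hα⟩ | ⟨r, hr, hrp, hW, hα1, hα2, hβ3, hγ3, hδ⟩
    · -- (a)
      obtain ⟨k, hk⟩ := (hB v hv hcon).1 hcr
      have hsm := small_of_lt (hs0 _) (hnml ⟨p, hp.out⟩) k hk.1
      obtain ⟨w, hw⟩ := hFs ⟨p, hp.out⟩
      obtain ⟨h0, h1, h2⟩ := dis2 hα hβ1 hβ2 hγ1 hγ2 (hnml ⟨p, hp.out⟩) hw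
      fin_cases k
      · exact absurd h0 (ne_of_lt hsm)
      · exact absurd h1 (ne_of_lt hsm)
      · exact absurd h2 (ne_of_lt hsm)
    · -- (b)
      obtain ⟨R, rfl⟩ : ∃ R : Nat.Primes, (R : ℕ) = r := ⟨⟨r, hr⟩, rfl⟩
      have hsmall : ‖s R * v R 0‖ < 1 ∨ ‖s R * v R 1‖ < 1 ∨ ‖s R * v R 2‖ < 1 := by
        rcases hδ with h | h
        · obtain ⟨R, hR⟩ := R
          simp only at h
          subst h
          exact (hnml ⟨2, hR⟩).two hpp.ne_zero
        · obtain ⟨w, hw⟩ := hFs R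
          exact dis_r hα1 hβ3 hγ3 h (hnml R) hw
      have hz : ¬ ‖s R * v R 2‖ < 1 := by
        obtain ⟨w, hw⟩ := hFs R
        rw [sx_rot α β γ δ, sx_rot β γ α δ] at hw
        exact dis_x hpp.ne_zero hα1 hα2 (hnml R).rot.rot hw
      have hpx : ¬ ‖s ⟨p, hp.out⟩ * v ⟨p, hp.out⟩ 0‖ < 1 := by
        obtain ⟨w, hw⟩ := hFs ⟨p, hp.out⟩
        exact dis_x hpp.ne_zero hβ1 hβ2 (hnml ⟨p, hp.out⟩) hw
      have hpy : ¬ ‖s ⟨p, hp.out⟩ * v ⟨p, hp.out⟩ 1‖ < 1 := by
        obtain ⟨w, hw⟩ := hFs ⟨p, hp.out⟩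
        rw [sx_rot α β γ δ] at hw
        exact dis_x hpp.ne_zero hγ1 hγ2 (hnml ⟨p, hp.out⟩).rot hw
      rcases hsmall with h | h | h
      · apply hpx
        refine small_of_lt (hs0 _) (hnml ⟨p, hp.out⟩) 0
          ((hB v hv hcon).2.1 R hrp hW 0 ?_).1
        obtain ⟨h1, _, _, _⟩ := (hnml R).small hpp.ne_zero h
        rw [← norm_scale_lt (hs0 R)]
        change ‖s R * v R 0‖ < ‖s R * v R 1‖
        rw [h1]
        exact h
      · apply hpy
        refine small_of_lt (hs0 _) (hnml ⟨p, hp.out⟩) 1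
          ((hB v hv hcon).2.1 R hrp hW 1 ?_).1
        obtain ⟨h1, _, _, _⟩ := (hnml R).rot.small hpp.ne_zero h
        rw [← norm_scale_lt (hs0 R)]
        change ‖s R * v R 1‖ < ‖s R * v R 2‖
        rw [h1]
        exact h
      · exact hz h
  refine ⟨?_, hB, ?_, hD, ?_⟩
  · -- rational points
    intro u hu he
    have hrat : ∀ x y z : ℚ, (x ≠ 0 ∨ y ≠ 0 ∨ z ≠ 0) → x ^ p + y ^ p + z ^ p = 0 →
        ∃ (δ : CyclotomicField p ℚ → CyclotomicField p ℚ) (D : CyclotomicField p ℚ),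
          IsTwist p (CyclotomicField p ℚ) δ D ∧ ∀ (r : ℕ) [Fact r.Prime],
            Lifts p r (CyclotomicField p ℚ) δ D (x : ℚ_[r]) (y : ℚ_[r]) (z : ℚ_[r]) :=
      fun x y z hne he => Pool.Agent.K3h16.FC.mainRAT p hp2 _ c x y z hne he
    have hne : u 0 ≠ 0 ∨ u 1 ≠ 0 ∨ u 2 ≠ 0 := by
      by_contra hcon
      simp only [not_or, not_not] at hcon
      apply hu
      ext i
      fin_cases i
      · exact hcon.1
      · exact hcon.2.1
      · exact hcon.2.2
    refine ⟨⟨fun r h0 => ?_, fun r => ?_⟩, fun k => ?_⟩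
    · apply hu
      ext i
      have := congrFun h0 i
      simp only [Pi.zero_apply] at this
      exact_mod_cast this
    · have h1 := congrArg (fun t : ℚ => (t : ℚ_[(r : ℕ)])) he
      push_cast at h1
      exact h1
    · fin_cases k
      · obtain ⟨δ, D, hT, hL⟩ := hrat (u 1) (u 2) (u 0) (by tauto) (by linear_combination he)
        exact ⟨δ, D, hT, fun r => hL (r : ℕ)⟩
      · obtain ⟨δ, D, hT, hL⟩ := hrat (u 2) (u 0) (u 1) (by tauto) (by linear_combination he)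
        exact ⟨δ, D, hT, fun r => hL (r : ℕ)⟩
      · obtain ⟨δ, D, hT, hL⟩ := hrat (u 0) (u 1) (u 2) (by tauto) (by linear_combination he)
        exact ⟨δ, D, hT, fun r => hL (r : ℕ)⟩
  · -- regular primes
    intro hreg v hv hs
    obtain ⟨j, hj⟩ := (hB v hv hs).1 (Or.inr (Or.inr (Or.inr (Or.inr hreg))))
    refine ⟨j, hj, fun k => ?_⟩
    obtain ⟨s, hs0, hT⟩ := exists_tri hv hs
    have hnml : ∀ r : Nat.Primes, Nml p (s r * v r 0) (s r * v r 1) (s r * v r 2) := by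
      obtain ⟨δ, D, hD⟩ := hT.z2
      exact hD.nml
    have hsm := small_of_lt (hs0 _) (hnml _) j hj.1
    obtain ⟨δ, D, hTw, hL⟩ := hs k
    refine ⟨δ, D, hTw, hL, fun r => ?_⟩
    have hL' := fun r => (hL r).scale (s r) (hs0 r)
    fin_cases k
    · have hD : Dat p (CyclotomicField p ℚ) (fun r => s r * v r 1) (fun r => s r * v r 2)
          (fun r => s r * v r 0) δ D := ⟨hTw, fun r => (hnml r).rot, hL'⟩
      fin_cases j
      · exact hD.cusp_z hreg h5 c hsm (r : ℕ)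
      · exact hD.cusp_x hreg h5 c hsm (r : ℕ)
      · exact hD.cusp_y hreg h5 c hsm (r : ℕ)
    · have hD : Dat p (CyclotomicField p ℚ) (fun r => s r * v r 2) (fun r => s r * v r 0)
          (fun r => s r * v r 1) δ D := ⟨hTw, fun r => (hnml r).rot.rot, hL'⟩
      fin_cases j
      · exact hD.cusp_y hreg h5 c hsm (r : ℕ)
      · exact hD.cusp_z hreg h5 c hsm (r : ℕ)
      · exact hD.cusp_x hreg h5 c hsm (r : ℕ)
    · have hD : Dat p (CyclotomicField p ℚ) (fun r => s r * v r 0) (fun r => s r * v r 1)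
          (fun r => s r * v r 2) δ D := ⟨hTw, hnml, hL'⟩
      fin_cases j
      · exact hD.cusp_x hreg h5 c hsm (r : ℕ)
      · exact hD.cusp_y hreg h5 c hsm (r : ℕ)
      · exact hD.cusp_z hreg h5 c hsm (r : ℕ)
  · -- existence
    intro M
    obtain ⟨r, hr, hrp, hW⟩ := exists_r p hpp (by omega)
    obtain ⟨α, β, γ, δ, hC, hM, hloc, x, y, z, w, hne, hw0, he, hw⟩ :=
      exists_coe2 p hpp hp2 r hr hrp M
    have hvec : ∀ {R : Type} [CommRing R] (x y z : R), (x ≠ 0 ∨ y ≠ 0 ∨ z ≠ 0) →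
        (![x, y, z] : Fin 3 → R) ≠ 0 := by
      intro R _ x y z h h0
      have h1 := congrFun h0 0
      have h2 := congrFun h0 1
      have h3 := congrFun h0 2
      simp only [Pi.zero_apply] at h1 h2 h3
      rcases h with h | h | h
      · exact h h1
      · exact h h2
      · exact h h3
    refine ⟨α, β, γ, δ, hM, fun q _ => ?_, ⟨![x, y, z], w, hvec x y z hne, hw0, he, hw⟩,
      hD α β γ δ hC.b1 hC.b2 hC.c1 hC.c2
        (Or.inr ⟨r, hr, hrp, hW, hC.a1, hC.a2, hC.b3, hC.c3, hC.d⟩)⟩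
    obtain ⟨x, y, z, w, hne, hw0, he, hw⟩ := hloc q
    exact ⟨![x, y, z], w, hvec x y z hne, hw0, he, hw⟩

end Pool.Agent.Results.MP_308fa9_nt.FermatCurves
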