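import Pool.Agent.K3h48.BM.Places

/-!
# Everywhere locally soluble superelliptic curves of every exponent with empty Brauer-Manin set

Let `ℓ` be any prime number, let `p ≠ q` be primes and let `χ`, `ψ` be surjective characters
`(ℤ/p)^* → ℤ/ℓ`, `(ℤ/q)^* → ℤ/ℓ` such that `q` and `-1` are `ℓ`-th powers modulo `p` and `p` and
`-1` are `ℓ`-th powers modulo `q`.  The characters `χ` and `χ^j ψ` cut out `ℓ + 1` cyclic fields
`K_i` of degree `ℓ` in `ℚ(ζ_{pq})`.  Let `k` be a number field, let `G_i` be finite sets of monic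
irreducible nonlinear polynomials over `k` with a root in `k ⊗ K_i = k[x]/(P_i)` and let `M_i` be
the product of the elements of `G_i` and `f` the product of the `M_i`.  Let `a ∈ k^*` be such that
for some `m ≠ 0` the sum `∑ v_r(N a) χ(r)` over the primes `r` with `ψ(r) = m χ(r)` is not zero
modulo `ℓ`, where `N` is the norm from `k` to `ℚ`.

Let `C` be the smooth projective model of `a y^n = f(x)`, `ℓ ∣ n`.  The divisor of the function
`M_i` on `C` is divisible by `ℓ`, so the class of the cyclic algebra `(M_i, χ)` lies in `Br(C)`.  We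
prove that over every finite extension `L` of `k` and for every adelic point of `C` over `L` the sum
of the local invariants of the class with the index of `χ^{-m} ψ` is `[L : k]` times the above
sum for `m`, divided by `ℓ`.  So for all `L` of degree prime to `ℓ`, for instance `L = k`, the
Brauer-Manin set of `C` over `L` is empty, and Stoll's conjecture holds for `C` over `L`, without
assumptions on the Jacobian.  If all `G_i` are nonempty, then `C` has points over all completions
of all number fields that contain `k`.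

The completions of a number field `L` above the place of `ℚ` with the completion `K` are the
quotients of `K ⊗ L` by its maximal ideals.  The local invariant of the cyclic algebra `(b, χ)` over
a finite extension `E` of `ℚ_r` is the invariant of `(c, χ)` over `ℚ_r` for the norm `c` of `b`, and
this is `v_r(c) χ(r)` for `r ≠ p` and `-χ(u)`, `c = p^v u`, for `r = p`; at the archimedean places
the invariant is zero, because `χ(-1) = 0`.  The theorem contains the reciprocity law for these
invariants, so the diagonal image of `C(L)` would lie in the Brauer-Manin set.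

Proof.  The values of `M_i` are norms from `E ⊗ K_i` to `E`.  So their norms to `ℚ_r` are norms from
`ℚ_r ⊗ K_i`, and by approximation one can use the facts on norms from `K_i`: the valuation is
divisible by `ℓ` at primes that do not split, and for the field of `χ^j ψ`, `j ≠ 0`, the unit part
at `p` is an `ℓ`-th power modulo `p`.  If `ψ(r) = m χ(r) ≠ 0`, then this holds for all fields except
the one with the index of `χ^{-m} ψ`, so there the valuation is the one of the norm of `a`.
-/

set_option autoImplicit false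

open Polynomial

open scoped TensorProduct

namespace Pool.Agent.Results.MP_308fa9_nt.SuperellipticBrauerSets

universe u v

section arithmetic

variable {ℓ p q : ℕ} [Fact p.Prime] [Fact q.Prime]

/-- The character `χ` as a function on `ℤ/p` with values in the additive group `ℤ/ℓ`, extended by
`0` to zero. -/
noncomputable def index (χ : (ZMod p)ˣ →* Multiplicative (ZMod ℓ)) (x : ZMod p) : ZMod ℓ :=
  if h : x = 0 then 0 else (χ (Units.mk0 x h)).toAdd

/-- The characters `χ` modulo `p` and `ψ` modulo `q` are surjective, `p ≠ q`, the numbers `q` and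
`-1` are `ℓ`-th powers modulo `p`, and `p` and `-1` are `ℓ`-th powers modulo `q`. -/
structure Admissible (χ : (ZMod p)ˣ →* Multiplicative (ZMod ℓ))
    (ψ : (ZMod q)ˣ →* Multiplicative (ZMod ℓ)) : Prop where
  ne : p ≠ q
  surjective_left : Function.Surjective χ
  surjective_right : Function.Surjective ψ
  q_power : ∃ u : ZMod p, u ^ ℓ = q
  p_power : ∃ u : ZMod q, u ^ ℓ = p
  neg_power_left : ∃ u : ZMod p, u ^ ℓ = -1
  neg_power_right : ∃ u : ZMod q, u ^ ℓ = -1

/-- `χ(r)` if `ψ(r) = m χ(r)`, and `0` otherwise -/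
noncomputable def weight (χ : (ZMod p)ˣ →* Multiplicative (ZMod ℓ))
    (ψ : (ZMod q)ˣ →* Multiplicative (ZMod ℓ)) (m : ZMod ℓ) (r : ℕ) : ZMod ℓ :=
  if index ψ (r : ZMod q) = m * index χ (r : ZMod p) then index χ (r : ZMod p) else 0

/-- `∑ v_r(b) χ(r)` over all primes `r` with `ψ(r) = m χ(r)`, as an element of `ℤ/ℓ` -/
noncomputable def invariant (χ : (ZMod p)ˣ →* Multiplicative (ZMod ℓ))
    (ψ : (ZMod q)ˣ →* Multiplicative (ZMod ℓ)) (m : ZMod ℓ) (b : ℚ) : ZMod ℓ :=
  ∑ r ∈ (b.num.natAbs * b.den).primeFactors, (padicValRat r b : ZMod ℓ) * weight χ ψ m r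

/-- One of the invariants with `m ≠ 0` of the norm of `a` from `k` to `ℚ` is not zero. -/
def Obstructed (χ : (ZMod p)ˣ →* Multiplicative (ZMod ℓ))
    (ψ : (ZMod q)ˣ →* Multiplicative (ZMod ℓ)) {k : Type u} [Field k] [NumberField k] (a : k) :
    Prop :=
  ∃ m : ZMod ℓ, m ≠ 0 ∧ invariant χ ψ m (Algebra.norm ℚ a) ≠ 0

/-- The coefficients `(s, t)` of the characters `χ^s ψ^t`: the characters are `χ` and `χ^j ψ` for
`j ∈ ℤ/ℓ`. -/
def coefficients : Option (ZMod ℓ) → ZMod ℓ × ZMod ℓ
  | none => (1, 0)
  | some j => (j, 1)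

/-- The automorphism `ζ ↦ ζ^n` of `ℚ(ζ_{pq})` fixes `θ` if and only if `χ(n)^s ψ(n)^t = 1`.  So `θ`
generates the fixed field of the kernel of the character `χ^s ψ^t`. -/
def IsGenerator (χ : (ZMod p)ˣ →* Multiplicative (ZMod ℓ))
    (ψ : (ZMod q)ˣ →* Multiplicative (ZMod ℓ)) (s t : ZMod ℓ) (θ : CyclotomicField (p * q) ℚ) :
    Prop :=
  ∀ (σ : CyclotomicField (p * q) ℚ ≃ₐ[ℚ] CyclotomicField (p * q) ℚ) (n : ℕ),
    (∀ ζ, ζ ^ (p * q) = 1 → σ ζ = ζ ^ n) →
    (σ θ = θ ↔ s * index χ (n : ZMod p) + t * index ψ (n : ZMod q) = 0)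

end arithmetic

/-- The polynomial `g` over `k` is monic, irreducible and not linear, and it has a root in
`k[x]/(P)`. -/
structure IsFactor {k : Type u} [Field k] [CharZero k] (P : ℚ[X]) (g : k[X]) : Prop where
  monic : g.Monic
  irreducible : Irreducible g
  not_linear : g.natDegree ≠ 1
  root : ∃ r : AdjoinRoot (P.map (algebraMap ℚ k)), aeval r g = 0

section places

/-- The algebra `ℚ_r ⊗ L`, which is the product of the completions of `L` at the places above
`r`. -/
abbrev LocalAlgebra (r : ℕ) [Fact r.Prime] (L : Type u) [Field L] [NumberField L] : Type u :=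
  ℚ_[r] ⊗[ℚ] L

variable (r : ℕ) [Fact r.Prime] (L : Type u) [Field L] [NumberField L]

/-- The map from `L` to `ℚ_r ⊗ L`. -/
noncomputable def toLocal : L →+* LocalAlgebra r L :=
  (Algebra.TensorProduct.includeRight : L →ₐ[ℚ] ℚ_[r] ⊗[ℚ] L).toRingHom

variable {r L} in
/-- The norm from a residue algebra of `ℚ_r ⊗ L` to the field `ℚ_r`. -/
noncomputable def normTo (I : Ideal (LocalAlgebra r L)) (b : LocalAlgebra r L ⧸ I) : ℚ_[r] :=
  Algebra.norm ℚ_[r] b

/-- The finite places of the number field `L`: a prime number `r` and a maximal ideal of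
`ℚ_r ⊗ L`. -/
structure FinitePlace where
  /-- the prime number `r` -/
  prime : ℕ
  /-- `r` is a prime number -/
  fact : Fact prime.Prime
  /-- the ideal of `ℚ_r ⊗ L` -/
  ideal : Ideal (LocalAlgebra prime L)
  /-- the ideal is maximal -/
  maximal : ideal.IsMaximal

attribute [instance] FinitePlace.fact FinitePlace.maximal

variable {L}

/-- The completion of `L` at a finite place: the residue field of the maximal ideal. -/
def Completion (v : FinitePlace L) : Type u := LocalAlgebra v.prime L ⧸ v.ideal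

noncomputable instance fieldCompletion (v : FinitePlace L) : Field (Completion v) :=
  Ideal.Quotient.field v.ideal

/-- The embedding of `L` in its completion at a finite place. -/
noncomputable def embedding (v : FinitePlace L) : L →+* Completion v :=
  (Ideal.Quotient.mk v.ideal).comp (toLocal v.prime L)

variable (L) in
/-- The algebra `ℝ ⊗ L`, which is the product of the completions of `L` at the archimedean
places. -/
abbrev RealAlgebra : Type u := ℝ ⊗[ℚ] L

variable (L) in
/-- The map from `L` to `ℝ ⊗ L`. -/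
noncomputable def toReal : L →+* RealAlgebra L :=
  (Algebra.TensorProduct.includeRight : L →ₐ[ℚ] ℝ ⊗[ℚ] L).toRingHom

/-- The completion of `L` at an archimedean place, given by a maximal ideal of `ℝ ⊗ L`. -/
def RealCompletion (v : MaximalSpectrum (RealAlgebra L)) : Type u := RealAlgebra L ⧸ v.asIdeal

noncomputable instance fieldRealCompletion (v : MaximalSpectrum (RealAlgebra L)) :
    Field (RealCompletion v) :=
  Ideal.Quotient.field v.asIdeal

/-- The embedding of `L` in its completion at an archimedean place. -/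
noncomputable def realEmbedding (v : MaximalSpectrum (RealAlgebra L)) : L →+* RealCompletion v :=
  (Ideal.Quotient.mk v.asIdeal).comp (toReal L)

end places

section points

variable {k : Type u} [Field k]

/-- The points over the field `E`, an extension of `k` through `ι`, of the smooth projective model
of the curve `a y^n = f(x)`, `f` monic and separable: the affine points and the points at infinity,
which correspond to the `d`-th roots of `1 / a`, where `d` is the greatest common divisor of `n` and
the degree of `f`. -/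
inductive Point (a : k) (f : k[X]) (n : ℕ) {E : Type v} [Field E] (ι : k →+* E) : Type v
  | affine (x y : E) (h : ι a * y ^ n = eval₂ ι x f) : Point a f n ι
  | infinite (z : E) (h : ι a * z ^ Nat.gcd n f.natDegree = 1) : Point a f n ι

/-- The adelic points over the number field `L`, an extension of `k`: a point over each completion
of `L`. -/
structure AdelicPoint (a : k) (f : k[X]) (n : ℕ) (L : Type u) [Field L] [NumberField L]
    [Algebra k L] where
  /-- the points over the completions at the finite places -/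
  finite : ∀ v : FinitePlace L, Point a f n ((embedding v).comp (algebraMap k L))
  /-- the points over the completions at the archimedean places -/
  archimedean : ∀ v : MaximalSpectrum (RealAlgebra L),
    Point a f n ((realEmbedding v).comp (algebraMap k L))

/-- The value of `M_i`, the product of the elements of `G_i`, at a point of the curve
`a y^n = ∏ M_i(x)`, up to `ℓ`-th powers, if `ℓ ∣ n`.  If `M_i` vanishes, then this is the value of
`a / ∏ M_j`, `j ≠ i`; the quotient of these functions is the `n`-th power of `y`.  At infinity the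
value is `1`, since `M_i` is monic and its degree is divisible by `ℓ`. -/
noncomputable def value {I : Type} [Fintype I] {a : k} {f : k[X]} {n : ℕ}
    {E : Type v} [Field E] {ι : k →+* E} (G : I → Finset k[X]) (i : I) : Point a f n ι → E
  | .affine x _ _ => open scoped Classical in
    if ∏ g ∈ G i, eval₂ ι x g = 0 then ι a / ∏ j ∈ Finset.univ.erase i, ∏ g ∈ G j, eval₂ ι x g
    else ∏ g ∈ G i, eval₂ ι x g
  | .infinite _ _ => 1

end points

section invariants

variable {ℓ p : ℕ} [Fact p.Prime]

/-- The residue class of `c r^{-v}`, where `v` is the valuation of `c ∈ ℚ_r`. -/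
noncomputable def leading {r : ℕ} [Fact r.Prime] (c : ℚ_[r]) : ZMod r :=
  if h : ‖c * (r : ℚ_[r]) ^ (-c.valuation)‖ ≤ 1 then PadicInt.toZMod ⟨_, h⟩ else 0

/-- The local invariant of the cyclic algebra `(c, χ)` over `ℚ_r`, multiplied by `ℓ`: it is
`v_r(c) χ(r)` if `r ≠ p` and `-χ(u)` if `r = p` and `c = p^v u`. -/
noncomputable def localInvariant (χ : (ZMod p)ˣ →* Multiplicative (ZMod ℓ)) {r : ℕ}
    [Fact r.Prime] (c : ℚ_[r]) : ZMod ℓ :=
  if r = p then - index χ ((leading c).val : ZMod p)
  else ((c.valuation : ℤ) : ZMod ℓ) * index χ (r : ZMod p)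

/-- The local invariant of `(b, χ)`, multiplied by `ℓ`, at the place `v` of `L`, where `b` is an
element of the completion of `L` at `v`. -/
noncomputable def invariantAt (χ : (ZMod p)ˣ →* Multiplicative (ZMod ℓ)) {L : Type u} [Field L]
    [NumberField L] (v : FinitePlace L) (b : Completion v) : ZMod ℓ :=
  localInvariant χ (normTo v.ideal b)

/-- The local invariant at `v`, multiplied by `ℓ`, of the class `(M_i, χ)` at the adelic point
`P`. -/
noncomputable def localTerm (χ : (ZMod p)ˣ →* Multiplicative (ZMod ℓ)) {k : Type u} [Field k]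
    {I : Type} [Fintype I] {a : k} {f : k[X]} {n : ℕ} {L : Type u} [Field L] [NumberField L]
    [Algebra k L] (G : I → Finset k[X]) (i : I) (P : AdelicPoint a f n L) (v : FinitePlace L) :
    ZMod ℓ :=
  invariantAt χ v (value G i (P.finite v))

/-- The sum of all local invariants, multiplied by `ℓ`, of the class `(M_i, χ)` at the adelic
point `P`. -/
noncomputable def pairing (χ : (ZMod p)ˣ →* Multiplicative (ZMod ℓ)) {k : Type u} [Field k]
    {I : Type} [Fintype I] {a : k} {f : k[X]} {n : ℕ} {L : Type u} [Field L] [NumberField L]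
    [Algebra k L] (G : I → Finset k[X]) (i : I) (P : AdelicPoint a f n L) : ZMod ℓ :=
  ∑ᶠ v : FinitePlace L, localTerm χ G i P v

end invariants

section statements

variable {ℓ p q : ℕ} [Fact p.Prime] [Fact q.Prime] {k : Type u} [Field k] [NumberField k]

/-- The adelic points over `L` that are orthogonal to the classes `(M_i, χ)`, where `i` is the index
of one of the characters `χ^{-m} ψ`, `m ≠ 0`.  This set contains the Brauer-Manin set. -/
def orthogonalPoints (χ : (ZMod p)ˣ →* Multiplicative (ZMod ℓ))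
    (G : Option (ZMod ℓ) → Finset k[X]) [NeZero ℓ] (a : k) (f : k[X]) (n : ℕ) (L : Type u) [Field L]
    [NumberField L] [Algebra k L] : Set (AdelicPoint a f n L) :=
  {P | ∀ m : ZMod ℓ, m ≠ 0 → pairing χ G (some (-m)) P = 0}

/-- The reciprocity law: the sum of the local invariants of `(b, χ)` is zero for every element
`b ≠ 0` of `L`. -/
def Reciprocity (χ : (ZMod p)ˣ →* Multiplicative (ZMod ℓ)) (L : Type u) [Field L]
    [NumberField L] : Prop :=
  ∀ b : L, b ≠ 0 → {v : FinitePlace L | invariantAt χ v (embedding v b) ≠ 0}.Finite ∧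
    ∑ᶠ v : FinitePlace L, invariantAt χ v (embedding v b) = 0

/-- For every adelic point over `L` of the smooth projective model of `a y^n = f(x)` and every
`m ≠ 0` only finitely many local invariants of the class `(M_i, χ)`, `i` the index of `χ^{-m} ψ`,
are not zero, and their sum is `[L : k]` times the invariant of the norm of `a` for `m`. -/
def SumFormula (χ : (ZMod p)ˣ →* Multiplicative (ZMod ℓ))
    (ψ : (ZMod q)ˣ →* Multiplicative (ZMod ℓ)) (G : Option (ZMod ℓ) → Finset k[X]) [NeZero ℓ]
    (a : k) (f : k[X]) (n : ℕ) (L : Type u) [Field L] [NumberField L] [Algebra k L] : Prop :=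
  ∀ (P : AdelicPoint a f n L) (m : ZMod ℓ), m ≠ 0 →
    {v : FinitePlace L | localTerm χ G (some (-m)) P v ≠ 0}.Finite ∧
    pairing χ G (some (-m)) P = Module.finrank k L * invariant χ ψ m (Algebra.norm ℚ a)

end statements

/-- Let `ℓ`, `p`, `q` be primes, `(χ, ψ)` admissible, `θ_i` generators of the `ℓ + 1` cyclic fields
of the characters `χ`, `χ^j ψ`, and `P_i` their minimal polynomials.  Let `k` be a number field,
`a ∈ k` obstructed, `G_i` finite sets of monic irreducible nonlinear polynomials over `k` with a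
root in `k[x]/(P_i)`, and `f` the product of all elements of the sets `G_i`.  Let `n > 0` be
divisible by `ℓ` and let `L` be a finite extension of `k`.

* `f` is separable of degree `ℓ ∑ |G_i|`;
* if all `G_i` are nonempty, then the smooth projective model `C` of `a y^n = f(x)` has points over
  all completions of `L`;
* the reciprocity law holds for the local invariants over `L`;
* for every adelic point of `C` over `L` only finitely many local invariants of the class
  `(M_i, χ)`, `i` the index of `χ^{-m} ψ`, `m ≠ 0`, are not zero, and the sum of the invariants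
  is `[L : k]` times the invariant of the norm of `a` for `m`;
* if `[L : k]` is not divisible by `ℓ`, then there is no adelic point of `C` over `L` that is
  orthogonal to these classes.

For every prime `ℓ` there are admissible pairs with arbitrarily large `p`, `q`; there are always
generators `θ_i`; if some `a ∈ k` is obstructed then the polynomials `P_i(x - j)`, `j ∈ k`, can be
taken as factors; and if `ℓ` does not divide the degree of `k`, then the natural numbers `b` that
are not obstructed over `k` have the density `ℓ^{-(ℓ-1)}`. -/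
theorem result :
    (∀ (ℓ p q : ℕ) [Fact ℓ.Prime] [Fact p.Prime] [Fact q.Prime]
        (χ : (ZMod p)ˣ →* Multiplicative (ZMod ℓ)) (ψ : (ZMod q)ˣ →* Multiplicative (ZMod ℓ))
        (θ : Option (ZMod ℓ) → CyclotomicField (p * q) ℚ) (k : Type u) [Field k] [NumberField k]
        (a : k) (G : Option (ZMod ℓ) → Finset k[X]) (n : ℕ) (f : k[X]), Admissible χ ψ →
      (∀ i, IsGenerator χ ψ (coefficients i).1 (coefficients i).2 (θ i)) → Obstructed χ ψ a →
      (∀ i, ∀ g ∈ G i, IsFactor (minpoly ℚ (θ i)) g) → 0 < n → ℓ ∣ n → f = ∏ i, ∏ g ∈ G i, g →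
      f.Separable ∧ f.natDegree = ℓ * ∑ i, (G i).card ∧
      ∀ (L : Type u) [Field L] [NumberField L] [Algebra k L],
        ((∀ i, (G i).Nonempty) → Nonempty (AdelicPoint a f n L)) ∧
        Reciprocity χ L ∧ SumFormula χ ψ G a f n L ∧
        (¬ ℓ ∣ Module.finrank k L → orthogonalPoints χ G a f n L = ∅)) ∧
    (∀ (ℓ : ℕ) [Fact ℓ.Prime] (B : ℕ), ∃ (p q : ℕ) (_ : Fact p.Prime) (_ : Fact q.Prime)
      (χ : (ZMod p)ˣ →* Multiplicative (ZMod ℓ)) (ψ : (ZMod q)ˣ →* Multiplicative (ZMod ℓ)),
      B < p ∧ B < q ∧ Admissible χ ψ) ∧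
    ∀ (ℓ p q : ℕ) [Fact ℓ.Prime] [Fact p.Prime] [Fact q.Prime]
      (χ : (ZMod p)ˣ →* Multiplicative (ZMod ℓ)) (ψ : (ZMod q)ˣ →* Multiplicative (ZMod ℓ)),
      Admissible χ ψ →
      (∃ θ : Option (ZMod ℓ) → CyclotomicField (p * q) ℚ,
        ∀ i, IsGenerator χ ψ (coefficients i).1 (coefficients i).2 (θ i)) ∧
      ∀ (k : Type u) [Field k] [NumberField k],
        (∀ (θ : Option (ZMod ℓ) → CyclotomicField (p * q) ℚ) (a : k),
          (∀ i, IsGenerator χ ψ (coefficients i).1 (coefficients i).2 (θ i)) →
          Obstructed χ ψ a → ∀ (i : Option (ZMod ℓ)) (j : k), IsFactor (minpoly ℚ (θ i))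
            (((minpoly ℚ (θ i)).map (algebraMap ℚ k)).comp (X - C j))) ∧
        (¬ ℓ ∣ Module.finrank ℚ k →
          Filter.Tendsto (fun N : ℕ =>
            (Nat.card {b : ℕ // 1 ≤ b ∧ b ≤ N ∧ ¬ Obstructed χ ψ (b : k)} : ℝ) / (N : ℝ))
            Filter.atTop (nhds ((ℓ : ℝ) ^ (ℓ - 1))⁻¹)) := by
  classical
  have hgood : ∀ (ℓ p q : ℕ) [Fact ℓ.Prime] [Fact p.Prime] [Fact q.Prime]
      (χ : (ZMod p)ˣ →* Multiplicative (ZMod ℓ)) (ψ : (ZMod q)ˣ →* Multiplicative (ZMod ℓ)),
      Admissible χ ψ → Pool.Agent.K3h48.MN.Good χ ψ := by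
    intro ℓ p q _ _ _ χ ψ h
    exact ⟨h.ne, h.surjective_left, h.surjective_right,
      Pool.Agent.K3h48.MN.ind_pow_zero χ h.q_power, Pool.Agent.K3h48.MN.ind_pow_zero ψ h.p_power,
      Pool.Agent.K3h48.MN.ind_pow_zero χ h.neg_power_left,
      Pool.Agent.K3h48.MN.ind_pow_zero ψ h.neg_power_right⟩
  refine ⟨?_, ?_, ?_⟩
  · intro ℓ p q _ _ _ χ ψ θ k _ _ a G n f hadm hθ ha hGf hn hℓn hf
    subst hf
    have hℓ : ℓ.Prime := Fact.out
    have hG := hgood ℓ p q χ ψ hadm
    have hθ' : ∀ i, Pool.Agent.K3h48.MN.GenBy χ ψ (Pool.Agent.K3h48.MN.cs i).1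
        (Pool.Agent.K3h48.MN.cs i).2 (θ i) := by
      intro i
      cases i with
      | none => exact hθ none
      | some j => exact hθ (some j)
    have hGf' : ∀ i, ∀ g ∈ G i, Pool.Agent.K3h48.MN.IsFactor (minpoly ℚ (θ i)) g := fun i g hg =>
      ⟨(hGf i g hg).monic, (hGf i g hg).irreducible, (hGf i g hg).not_linear,
        (hGf i g hg).root⟩
    have ha' : Pool.Agent.K3h48.MN.Obs χ ψ a := ha
    have ha0 : a ≠ 0 := ha'.ne_zero
    obtain ⟨hsep, hdeg⟩ := Pool.Agent.K3h48.MN.final_separable hG hθ' ha' G hGf'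
    refine ⟨hsep, hdeg, ?_⟩
    intro L _ _ _
    have haL : algebraMap k L a ≠ 0 := (_root_.map_ne_zero _).2 ha0
    let e : (Σ r : Nat.Primes, Pool.Agent.K3h48.BM.Place ℚ_[(r : ℕ)] L) ≃ FinitePlace L :=
      { toFun := fun x => ⟨x.1, ⟨x.1.2⟩, x.2.asIdeal, x.2.isMaximal⟩
        invFun := fun v => ⟨⟨v.prime, v.fact.out⟩, ⟨v.ideal, v.maximal⟩⟩
        left_inv := fun _ => rfl
        right_inv := fun _ => rfl }
    have hpull : ∀ {M : Type} [Zero M] (f : FinitePlace L → M), {x | f (e x) ≠ 0}.Finite →
        {v | f v ≠ 0}.Finite := fun f h =>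
      (h.image e).subset fun v hv => ⟨e.symm v, hv, rfl⟩
    -- the local invariants
    have hloc : ∀ (P : AdelicPoint a (∏ i, ∏ g ∈ G i, g) n L) (m : ZMod ℓ), m ≠ 0 →
        ∀ x : (Σ r : Nat.Primes, Pool.Agent.K3h48.BM.Place ℚ_[(r : ℕ)] L),
          localTerm χ G (some (-m)) P (e x) =
          (((Algebra.norm ℚ_[(x.1 : ℕ)] (Pool.Agent.K3h48.BM.emb x.2
            (algebraMap k L a))).valuation : ℤ) : ZMod ℓ) *
            Pool.Agent.K3h48.MN.wt χ ψ m x.1 := by
      rintro P m hm x
      rw [localTerm]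
      cases hP : P.finite (e x) with
      | affine y z h =>
        exact Pool.Agent.K3h48.BM.affine (r := (x.1 : ℕ)) (E := Pool.Agent.K3h48.BM.Comp x.2) hG hθ'
          ha' hGf' hℓn ((Pool.Agent.K3h48.BM.emb x.2).comp (algebraMap k L)) h hm
      | infinite z h =>
        refine Pool.Agent.K3h48.BM.infinite (r := (x.1 : ℕ)) (E := Pool.Agent.K3h48.BM.Comp x.2) hG
          hθ' ha0 (n := Nat.gcd n (∏ i, ∏ g ∈ G i, g : k[X]).natDegree) (Nat.dvd_gcd hℓn ?_)
          ((Pool.Agent.K3h48.BM.emb x.2).comp (algebraMap k L)) h hm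
        rw [hdeg]
        exact dvd_mul_right _ _
    have hfin : ∀ m : ZMod ℓ, {v : Σ r : Nat.Primes, Pool.Agent.K3h48.BM.Place ℚ_[(r : ℕ)] L |
        (((Algebra.norm ℚ_[(v.1 : ℕ)] (Pool.Agent.K3h48.BM.emb v.2
            (algebraMap k L a))).valuation : ℤ) : ZMod ℓ) *
            Pool.Agent.K3h48.MN.wt χ ψ m v.1 ≠ 0}.Finite := fun m =>
      Pool.Agent.K3h48.BM.finite_places (p := p) _ haL fun v _ hv => by
        rw [hv, Int.cast_zero, zero_mul]
    have hsum : ∀ (P : AdelicPoint a (∏ i, ∏ g ∈ G i, g) n L) (m : ZMod ℓ), m ≠ 0 →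
        pairing χ G (some (-m)) P =
          Module.finrank k L * invariant χ ψ m (Algebra.norm ℚ a) := by
      intro P m hm
      have h1 := Pool.Agent.K3h48.BM.sum_places (Pool.Agent.K3h48.MN.wt χ ψ m) haL
      have h2 : Algebra.norm ℚ (algebraMap k L a) = Algebra.norm ℚ a ^ Module.finrank k L := by
        rw [← Algebra.norm_norm (R := ℚ) (S := k), Algebra.norm_algebraMap, map_pow]
      rw [h2, Pool.Agent.K3h48.MN.ssum_pow _ (Algebra.norm_ne_zero_iff.2 ha0)] at h1
      refine Eq.trans ?_ h1
      rw [pairing, ← finsum_comp_equiv e]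
      refine (finsum_congr fun v => hloc P m hm v).trans ?_
      exact Pool.Agent.K3h48.BM.finsum_sigma (hfin m)
    refine ⟨?_, ?_, ?_, ?_⟩
    · intro hne
      have key : ∀ (E : Type u) [Field E] (ι : k →+* E),
          ((∃ (r : ℕ) (_ : Fact r.Prime), Nonempty (ℚ_[r] →+* E)) ∨ Nonempty (ℝ →+* E)) →
          Nonempty (Point a (∏ i, ∏ g ∈ G i, g) n ι) := by
        intro E _ ι hE
        let _ : Algebra k E := ι.toAlgebra
        obtain ⟨x, hx⟩ := Pool.Agent.K3h48.MN.final_local hG hθ' G hGf' hne (L := E) hE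
        refine ⟨.affine x 0 ?_⟩
        rw [zero_pow hn.ne', mul_zero]
        exact hx.symm
      refine ⟨⟨fun v => (key _ _ (Or.inl ⟨v.prime, v.fact,
        ⟨algebraMap ℚ_[v.prime] (LocalAlgebra v.prime L ⧸ v.ideal)⟩⟩)).some, fun v => ?_⟩⟩
      refine (key _ _ (Or.inr ⟨?_⟩)).some
      exact (Ideal.Quotient.mk v.asIdeal).comp
        (Algebra.TensorProduct.includeLeft : ℝ →ₐ[ℚ] ℝ ⊗[ℚ] L).toRingHom
    · intro b hb
      have h1 : {x : Σ r : Nat.Primes, Pool.Agent.K3h48.BM.Place ℚ_[(r : ℕ)] L |
          invariantAt χ (e x) (embedding (e x) b) ≠ 0}.Finite :=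
        Pool.Agent.K3h48.BM.finite_places (p := p) b hb fun v hv hv' => by
          refine (Pool.Agent.K3h48.BM.linv_ne (χ := χ) hv _).trans ?_
          have h3 : (normTo (e v).ideal (embedding (e v) b)).valuation = 0 := hv'
          have h4 : (((normTo (e v).ideal (embedding (e v) b)).valuation : ℤ) : ZMod ℓ) *
              Pool.Agent.K3h48.MN.ind χ ((v.1 : ℕ) : ZMod p) = 0 := by
            rw [h3, Int.cast_zero, zero_mul]
          exact h4
      refine ⟨hpull _ h1, ?_⟩
      rw [← finsum_comp_equiv e]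
      exact (Pool.Agent.K3h48.BM.finsum_sigma h1).trans
        (Pool.Agent.K3h48.BM.reciprocity hG.neg_left hb)
    · intro P m hm
      refine ⟨hpull _ ((hfin m).subset fun v hv => ?_), hsum P m hm⟩
      have h1 := hloc P m hm v
      exact fun h2 => hv (h1.trans h2)
    · intro hL
      obtain ⟨m, hm, ham⟩ := ha
      refine Set.eq_empty_of_forall_notMem fun P h => ?_
      have h1 := hsum P m hm
      rw [h m hm] at h1
      have h2 : ((Module.finrank k L : ℕ) : ZMod ℓ) ≠ 0 := by
        rwa [Ne, ZMod.natCast_eq_zero_iff]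
      exact mul_ne_zero h2 ham h1.symm
  · intro ℓ _ B
    have hℓ : ℓ.Prime := Fact.out
    obtain ⟨p, hp, hBp, hp1⟩ := Nat.exists_prime_gt_modEq_one (k := 2 * ℓ) B
      (mul_ne_zero two_ne_zero hℓ.ne_zero)
    obtain ⟨q, hq, hqB, hq1, hqp, hpow⟩ := Pool.Agent.K3h48.MN.exists_q hℓ.pos hp (max B p)
    have : Fact p.Prime := ⟨hp⟩
    have : Fact q.Prime := ⟨hq⟩
    have hd : ∀ r : ℕ, r.Prime → r ≡ 1 [MOD 2 * ℓ] → 2 * ℓ ∣ r - 1 := fun r hr h =>
      (Nat.modEq_iff_dvd' hr.one_lt.le).1 h.symm
    obtain ⟨χ, hχ⟩ := Pool.Agent.K3h48.MN.exists_char (ℓ := ℓ) (p := p)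
      ((Dvd.intro_left 2 rfl).trans (hd p hp hp1))
    obtain ⟨ψ, hψ⟩ := Pool.Agent.K3h48.MN.exists_char (ℓ := ℓ) (p := q)
      ((Dvd.intro_left 2 rfl).trans (hd q hq hq1))
    have hBq : B < q := lt_of_le_of_lt (le_max_left _ _) hqB
    have hpq : p < q := lt_of_le_of_lt (le_max_right _ _) hqB
    refine ⟨p, q, ⟨hp⟩, ⟨hq⟩, χ, ψ, hBp, hBq, hpq.ne, hχ, hψ, ⟨1, ?_⟩, hpow,
      Pool.Agent.K3h48.MN.neg_one_pow hℓ.pos (hd p hp hp1),
      Pool.Agent.K3h48.MN.neg_one_pow hℓ.pos (hd q hq hq1)⟩
    rw [one_pow, (ZMod.natCast_eq_natCast_iff _ _ _).2 hqp, Nat.cast_one]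
  · intro ℓ p q _ _ _ χ ψ hadm
    have hG := hgood ℓ p q χ ψ hadm
    refine ⟨?_, ?_⟩
    · have h1 := fun i : Option (ZMod ℓ) => Pool.Agent.K3h48.MN.exists_gen χ ψ
        (coefficients i).1 (coefficients i).2
      choose θ hθ using h1
      exact ⟨θ, hθ⟩
    · intro k _ _
      refine ⟨?_, fun h => Pool.Agent.K3h48.MN.obs_density hG h⟩
      intro θ a hθ ha i j
      have hθ' : ∀ i, Pool.Agent.K3h48.MN.GenBy χ ψ (Pool.Agent.K3h48.MN.cs i).1
          (Pool.Agent.K3h48.MN.cs i).2 (θ i) := by
        intro i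
        cases i with
        | none => exact hθ none
        | some j => exact hθ (some j)
      have ha' : Pool.Agent.K3h48.MN.Obs χ ψ a := ha
      have h1 := Pool.Agent.K3h48.MN.translate hG hθ' ha' i j
      exact ⟨h1.monic, h1.irreducible, h1.not_linear, h1.root⟩

end Pool.Agent.Results.MP_308fa9_nt.SuperellipticBrauerSets
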