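import Pool.Agent.K3h48.TC.Ex3

/-!
# The Brauer-Manin sets of almost all twists of a cyclic covering, all exponents

Let `n` be a positive integer and let `D : b y ^ n = ∏ k, G k (z, w)` be a curve over `ℚ`, where the
`G k` are the homogenisations of polynomials `g k` with integral coefficients, of degrees divisible by
`n`, pairwise coprime. Let `h` be a polynomial with integral coefficients, coprime to the `g k`, and
`H` its homogenisation. For a squarefree integer `a` and `m ≥ 2`, `m ∣ deg h`, consider the curve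

  `C a : b y ^ n = ∏ k, G k (z, w)`, `a x ^ m = H (z, w)`.

It is a cyclic covering of degree `m` of `D`, and for different `a` these coverings are twists of each
other. The divisor of the function `G k` on `D` is divisible by `n`. So, for a Dirichlet character `χ`
with `χ ^ n = 1`, the cyclic algebra `(G k, χ)` is unramified and belongs to the Brauer group of (a
smooth projective model of) `C a`. For an adelic point its local invariants are given by the symbols

* `χ r ^ v`, `v` the valuation of the value of `G k` at the component at `r`, for the primes `r` which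
  do not divide the modulus `q ^ e` of `χ`;
* `χ (u)⁻¹`, `u` the unit part of the value, at `r = q`;
* `χ (-1)`, if the value is negative, at the real place.

(The value is taken modulo `n`-th powers; where `G k = 0`, it is computed from
`G k = b y ^ n / ∏ G l`.) We call an adelic point orthogonal if the product of the symbols is `1` for
all `k` and all Dirichlet characters `χ` of prime power modulus with `χ ^ n = 1`.

Call a family `δ k` of nonzero rational numbers with `∏ δ k = b t ^ n` persistent if every
automorphism `σ` of the field of algebraic numbers fixes a zero `β` of `h` and numbers `y k` with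
`g k (β) = δ k * y k ^ n` (all `k`). We prove:

(1) almost all the symbols are `1`, and the adelic points of rational points are orthogonal;

(2) for all squarefree `a`, `|a| ≤ X`, with at most `C X (log X) ^ (-κ)` exceptions, `κ > 0`, all the
orthogonal adelic points of the curves `C a` (all `m`) have a persistent class: there is a persistent
family `δ`, such that the values of `G k` are `δ k` up to `n`-th powers, at all places;

(3) if there is no persistent family, then for almost all `a` (in this sense) the set of the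
orthogonal adelic points is empty: so the curves `C a` have no rational points and satisfy Stoll's
conjecture, without assumptions on the Jacobians and on their Tate-Shafarevich groups;

(4) for every `n ≥ 3` there are such polynomials `g 0, g 1, h`, `h` of degree `6`, without persistent
families, for which all the curves `C a` (all `a` and `m`) have adelic points.

In the example, `h = (z² - p) (z² - q) (z² - p q)` for primes `p`, `q` with `p = 1` modulo `8`,
`q = 1` modulo `8 p`, which do not divide `n`, and `g 0 = h ^ n + R ^ n + R ^ (n - 1) (z² - p)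
(z² - p q)`, `R = (q - p) (q - p q)`, and `g 1 = g 0 ^ (n - 1) + h ^ n`. At the zeros of `h` the product
`g 0 * g 1` is the `n`-th power of `g 0`, and `g 0` has the values `R ^ n`, `2 R ^ n`, `R ^ n`. As `2`
is not an `n`-th power in an abelian extension of `ℚ`, no family is persistent. The curves are
geometrically irreducible (`g 0` is not a power, and `h` has simple zeros).

The starting file `EmptySetsOfTwistedCoverings` has `n = 2`, quaternion algebras, and one example. Here
the exponent is arbitrary. For odd `n` the real place and the quadratic reciprocity law play no role,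
and the classes are detected by characters of order dividing `n`.
-/

set_option autoImplicit false

namespace Pool.Agent.Results.MP_308fa9_nt.TwistedCoveringsAllExponents

open Polynomial Pool.Agent.R925.FD Pool.Agent.K3h48.TC

/-- The conditions on the polynomials: nonzero, the `g k` of degrees divisible by `n`, pairwise
coprime over `ℚ` and coprime to `h`. -/
structure Admissible {K : Type} (n : ℕ) (b : ℤ) (g : K → ℤ[X]) (h : ℤ[X]) : Prop where
  n_pos : 0 < n
  b_ne : b ≠ 0
  g_ne : ∀ k, g k ≠ 0
  h_ne : h ≠ 0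
  deg : ∀ k, n ∣ (g k).natDegree
  coprime : ∀ k l, k ≠ l →
    IsCoprime ((g k).map (Int.castRingHom ℚ)) ((g l).map (Int.castRingHom ℚ))
  coprime_h : ∀ k, IsCoprime (h.map (Int.castRingHom ℚ)) ((g k).map (Int.castRingHom ℚ))

/-- The squarefree integers `a`, `|a| ≤ X`, with the property `P` are at most
`C * X * (log X) ^ (-κ)`, for some `κ > 0` and `C`, for all `X ≥ 3`. -/
def AlmostNone (P : ℤ → Prop) : Prop :=
  ∃ κ : ℝ, 0 < κ ∧ ∃ C : ℝ, ∀ X : ℕ, 3 ≤ X →
    ({a : ℤ | a.natAbs ≤ X ∧ Squarefree a ∧ P a}.ncard : ℝ) ≤ C * X * (Real.log X) ^ (-κ)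

lemma AlmostNone.mono {P Q : ℤ → Prop} (h : ∀ a, P a → Q a) (hQ : AlmostNone Q) : AlmostNone P := by
  obtain ⟨κ, hκ, C, hC⟩ := hQ
  refine ⟨κ, hκ, C, fun X hX => le_trans ?_ (hC X hX)⟩
  refine Nat.cast_le.2 (Set.ncard_le_ncard (fun a ha => ⟨ha.1, ha.2.1, h a ha.2.2⟩) ?_)
  apply (Set.finite_Icc (-(X : ℤ)) X).subset
  intro d hd
  have h1 := hd.1
  rw [Set.mem_Icc]
  omega

theorem result :
    (∀ (n : ℕ) (K : Type) [Fintype K] [DecidableEq K] (b : ℤ) (g : K → ℤ[X]) (h : ℤ[X]),
      Admissible n b g h →
      (∀ (m : ℕ) (a : ℤ) (P : APt n m b a g h) (k : K) (q : Nat.Primes) (e : ℕ)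
        (χ : DirichletCharacter ℂ ((q : ℕ) ^ e)), χ ^ n = 1 →
        {r : Nat.Primes | symb χ (valueAt (P.pa r) k) ≠ 1}.Finite) ∧
      (∀ (m : ℕ) (a : ℤ) (P : Pt n m b a g h ℚ), Orth (ofRat P)) ∧
      AlmostNone (fun a => ∃ m, 2 ≤ m ∧ m ∣ h.natDegree ∧ ∃ P : APt n m b a g h, Orth P ∧
        ¬ ∃ δ : K → ℚ, HasClass P δ ∧ Persistent n g h δ) ∧
      ((∀ δ : K → ℚ, IsClass n b δ → ¬ Persistent n g h δ) →
        AlmostNone (fun a => ∃ m, 2 ≤ m ∧ m ∣ h.natDegree ∧ ∃ P : APt n m b a g h, Orth P))) ∧
    ∀ n : ℕ, 3 ≤ n → ∃ (g : Fin 2 → ℤ[X]) (h : ℤ[X]), Admissible n 1 g h ∧ h.natDegree = 6 ∧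
      (∀ δ, IsClass n 1 δ → ¬ Persistent n g h δ) ∧
      (∀ (a : ℤ) (m : ℕ), m ≠ 0 → Nonempty (APt n m 1 a g h)) ∧
      AlmostNone (fun a => ∃ m, 2 ≤ m ∧ m ∣ h.natDegree ∧ ∃ P : APt n m 1 a g h, Orth P) := by
  have gen : ∀ (n : ℕ) (K : Type) [Fintype K] [DecidableEq K] (b : ℤ) (g : K → ℤ[X]) (h : ℤ[X]),
      Admissible n b g h →
      (∀ (m : ℕ) (a : ℤ) (P : APt n m b a g h) (k : K) (q : Nat.Primes) (e : ℕ)
        (χ : DirichletCharacter ℂ ((q : ℕ) ^ e)), χ ^ n = 1 →
        {r : Nat.Primes | symb χ (valueAt (P.pa r) k) ≠ 1}.Finite) ∧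
      (∀ (m : ℕ) (a : ℤ) (P : Pt n m b a g h ℚ), Orth (ofRat P)) ∧
      AlmostNone (fun a => ∃ m, 2 ≤ m ∧ m ∣ h.natDegree ∧ ∃ P : APt n m b a g h, Orth P ∧
        ¬ ∃ δ : K → ℚ, HasClass P δ ∧ Persistent n g h δ) ∧
      ((∀ δ : K → ℚ, IsClass n b δ → ¬ Persistent n g h δ) →
        AlmostNone (fun a => ∃ m, 2 ≤ m ∧ m ∣ h.natDegree ∧ ∃ P : APt n m b a g h, Orth P)) := by
    intro n K _ _ b g h hA
    have hmain := orth_main hA.n_pos hA.b_ne hA.g_ne hA.h_ne hA.deg hA.coprime hA.coprime_h
    refine ⟨fun m a P k q e χ hχ => symb_finite hA.n_pos hA.b_ne hA.g_ne hA.h_ne hA.deg hA.coprime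
      hA.coprime_h P k q e χ hχ, fun m a P => orth_ofRat hA.b_ne hA.g_ne hA.coprime P, hmain,
      fun hno => AlmostNone.mono ?_ hmain⟩
    rintro a ⟨m, hm, hmh, P, hP⟩
    exact ⟨m, hm, hmh, P, hP, fun ⟨δ, h1, h2⟩ => hno δ h1.1 h2⟩
  refine ⟨gen, fun n hn => ?_⟩
  obtain ⟨g, h, h1, h2, h3, h4, h5, h6, h7, h8⟩ := example_all hn
  have hA : Admissible n 1 g h := ⟨by omega, one_ne_zero, h2, h3, h4, h5, h6⟩
  exact ⟨g, h, hA, h1, h7, h8, (gen n (Fin 2) 1 g h hA).2.2.2 h7⟩

end Pool.Agent.Results.MP_308fa9_nt.TwistedCoveringsAllExponents
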