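import Pool.Agent.K3h1.TF.Fin2

/-!
# Furtwängler's theorems for the Brauer-Manin sets of the curves `x ^ p + y ^ p = c z ^ p`

Let `p ≥ 5` be a prime number and `c ≠ 0` an integer which is not divisible by `p` and has no prime
factor that is `1` modulo `p`; let `F_c` be the curve `x ^ p + y ^ p = c z ^ p` over `ℚ` (genus
`(p - 1) (p - 2) / 2`) with the rational point `P₀ = (1 : -1 : 0)`, and `E` the `p`-th cyclotomic field.
The lines `x + ξ y = 0`, `ξ ^ p = 1`, are tangents of `F_c` with contact of order `p`, and hence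
`x + ξ y = w_ξ ^ p` defines an abelian etale covering of `F_c` over `E`, with the twists
`x + ξ y = δ_ξ w_ξ ^ p`, `z = D ∏ w_ξ` with `∏ δ_ξ = c D ^ p`. Let `S` be the set of all adelic points
`v` of `F_c` (families of points over the fields `ℚ_r`) which lift to one of the twists (`SurvivesC`),
that is to points of one and the same twist over the algebras `ℚ_r ⊗ E` for all prime numbers `r`.
According to Stoll (2007) the Brauer-Manin set of a curve is the set of the adelic points that survive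
all abelian coverings, and a point of the Brauer-Manin set of `F_c` over `ℚ` is one over `E` too, so
that `S` contains the projection `pr^∞ (F_c(𝔸)^Br)` of the Brauer-Manin set to the finite places. The
theorem holds for `S` and so, all the more, for the Brauer-Manin set:

* the rational points are in `S`;
* if `c ^ (p - 1)` is not `1` modulo `p ^ 2` then for every `v ∈ S` the point `v_p` is in the residue
  disc of `P₀`, or `x / y` is `1` modulo `p` at `p`, where the latter is possible only if `c ^ (p - 1)`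
  and `2 ^ (p - 1)` are congruent modulo `p ^ 2`. So if `c ^ (p - 1)` is neither `1` nor `2 ^ (p - 1)`
  modulo `p ^ 2` then `v_p` is in the residue disc of `P₀`: the image of the Brauer-Manin set in
  `F_c(𝔽_p)` is that of the rational point `P₀`. There is no further condition on `p`;
* (Furtwängler's first theorem) let `v ∈ S`, and let `r ≠ p` be a prime number which does not divide `c`,
  with `r ^ (p - 1)` not `1` modulo `p ^ 2`. If `v_r` is on `x = 0` modulo `r` then `v_p` is on `x = 0`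
  modulo `p`, and the same for `y = 0`. If `c ^ (p - 1)` is not `1` modulo `p ^ 2` then `v_r` is neither
  on `x = 0` nor on `y = 0` modulo `r`; so if `r = 2` then `v_2` is in the residue disc of `P₀`;
* (Furtwängler's second theorem) let `v ∈ S` and `r ≠ p` with `r ^ (p - 1)` not `1` modulo `p ^ 2`. Unless
  `v_p` is in the residue disc of `P₀`, `x / y` is `1` modulo `p` at `p` if at `r` it is `-1` modulo `r`
  (for example if `r` divides `c` and the order of `r` in `c` is prime to `p`), or if `r` does not divide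
  `c` and `x / y` is `1` modulo `r` at `r`;
* let `r ≠ p` be a prime number which does not divide `c`, with `r ^ (p - 1)` not `1` modulo `p ^ 2`,
  assume that `c ^ (p - 1)` is not `1` modulo `p ^ 2`, and let `g` be a form of even degree in `x` and `y`
  over `ℤ` which takes no square values modulo `r` for `x` and `y` prime to `r`. Then the double
  covering `w ^ 2 = g (x, y)` of `F_c` has no adelic point over `S`. So its Brauer-Manin set is empty,
  and Stoll's conjecture holds for it;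
* for every prime number `p ≥ 5` there are prime numbers `c` and `r > p` such that for infinitely many `e`
  the double covering
  `w ^ 2 = (p^* - 1) x ^ (r - 1) + y ^ (r - 1) + r e x (x + y) y ^ (r - 3)` of `F_c`, where `p^* = ± p` is
  `1` modulo `4`, has no adelic point over `S`, but it has (smooth) points over all completions of `ℚ`:
  a counterexample to the Hasse principle, explained by the Brauer-Manin obstruction (modulo `r` the form
  is `p^*` if `x` and `y` are prime to `r`, and `p^*` is not a square modulo `r`). It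
  is geometrically integral: otherwise the polynomial
  `f = (p^* - 1) t ^ (r - 1) + r e t ^ 2 + r e t + 1` would be a square `g ^ 2` (the degree `p` of `F_c`
  over the line with the coordinate `t = x / y` is odd), and then `g` would divide the polynomial
  `t f' - (r - 1) f ≠ 0` of degree `≤ 2`, but the degree of `g` is `(r - 1) / 2 > 2` as `r > p`.
-/

set_option autoImplicit false

namespace Pool.Agent.Results.MP_308fa9_nt.TwistedFermatCurves

open Polynomial Pool.Agent.K3h1.TF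

theorem result (p : ℕ) [hp : Fact p.Prime] (h5 : 5 ≤ p) :
    (∀ c : ℤ, c ≠ 0 → ¬ (p : ℤ) ∣ c → (∀ q : ℕ, q.Prime → (q : ℤ) ∣ c → q % p ≠ 1) →
      (∀ u : Fin 3 → ℚ, u ≠ 0 → u 0 ^ p + u 1 ^ p = c * u 2 ^ p →
        AdelicC p c (fun _ i => (u i : ℚ_[_])) ∧
        SurvivesC p c (CyclotomicField p ℚ) (fun _ i => (u i : ℚ_[_]))) ∧
      (∀ v, AdelicC p c v → SurvivesC p c (CyclotomicField p ℚ) v →
        (∀ r : Nat.Primes, (r : ℕ) ≠ p → ¬ p ^ 2 ∣ (r : ℕ) ^ (p - 1) - 1 →
          (¬ ((r : ℕ) : ℤ) ∣ c → (‖v r 0‖ < ‖v r 1‖ → ‖v ⟨p, hp.out⟩ 0‖ < ‖v ⟨p, hp.out⟩ 1‖) ∧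
            (‖v r 1‖ < ‖v r 0‖ → ‖v ⟨p, hp.out⟩ 1‖ < ‖v ⟨p, hp.out⟩ 0‖)) ∧
          (Red0 (v ⟨p, hp.out⟩) ∨ (¬ ((r : ℕ) : ℤ) ∣ c → Diag (v r) → Diag (v ⟨p, hp.out⟩)) ∧
            (‖v r 0 + v r 1‖ < ‖v r 0‖ → Diag (v ⟨p, hp.out⟩)))) ∧
        (¬ (p : ℤ) ^ 2 ∣ c ^ (p - 1) - 1 →
          (Red0 (v ⟨p, hp.out⟩) ∨
            Diag (v ⟨p, hp.out⟩) ∧ (p : ℤ) ^ 2 ∣ c ^ (p - 1) - 2 ^ (p - 1)) ∧
          ∀ r : Nat.Primes, (r : ℕ) ≠ p → ¬ p ^ 2 ∣ (r : ℕ) ^ (p - 1) - 1 →
            ¬ ((r : ℕ) : ℤ) ∣ c → ‖v r 0‖ = ‖v r 1‖ ∧ ((r : ℕ) = 2 → Red0 (v r)))) ∧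
      (¬ (p : ℤ) ^ 2 ∣ c ^ (p - 1) - 1 → ∀ r : Nat.Primes, (r : ℕ) ≠ p →
        ¬ p ^ 2 ∣ (r : ℕ) ^ (p - 1) - 1 → ¬ ((r : ℕ) : ℤ) ∣ c →
        ∀ (m : ℕ) (g : MvPolynomial (Fin 2) ℤ), g.IsHomogeneous (2 * m) →
        (∀ a b : ZMod (r : ℕ), a ≠ 0 → b ≠ 0 → ¬ IsSquare (MvPolynomial.aeval ![a, b] g)) →
        ∀ v, AdelicC p c v → (∃ w, w ^ 2 = MvPolynomial.aeval ![v r 0, v r 1] g) →
          ¬ SurvivesC p c (CyclotomicField p ℚ) v)) ∧
    ∃ c r : ℕ, c.Prime ∧ c ≠ p ∧ c % p ≠ 1 ∧ r.Prime ∧ p < r ∧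
      ∀ M : ℤ, ∃ e : ℤ, M < e ∧
        (∀ (q : ℕ) [Fact q.Prime], ∃ (u : Fin 3 → ℚ_[q]) (w : ℚ_[q]), u ≠ 0 ∧ w ≠ 0 ∧
          u 0 ^ p + u 1 ^ p = (c : ℤ) * u 2 ^ p ∧ w ^ 2 = fm p r e (u 0) (u 1)) ∧
        (∃ (u : Fin 3 → ℝ) (w : ℝ), u ≠ 0 ∧ w ≠ 0 ∧
          u 0 ^ p + u 1 ^ p = (c : ℤ) * u 2 ^ p ∧ w ^ 2 = fm p r e (u 0) (u 1)) ∧
        ∀ v, AdelicC p c v → (∀ q, ∃ w, w ^ 2 = fm p r e (v q 0) (v q 1)) →
          ¬ SurvivesC p c (CyclotomicField p ℚ) v := by
  have hpp : p.Prime := hp.out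
  have hp2 : p ≠ 2 := by omega
  -- the cyclotomic field
  have hcyc : @IsCyclotomicExtension {p} ℚ (CyclotomicField p ℚ) _ _
      DivisionRing.toRatAlgebra := by
    have : NeZero p := ⟨hpp.ne_zero⟩
    have : NeZero ((p : ℕ) : ℚ) := ⟨by exact_mod_cast hpp.ne_zero⟩
    have h := CyclotomicField.isCyclotomicExtension p ℚ
    have e : (DivisionRing.toRatAlgebra : Algebra ℚ (CyclotomicField p ℚ)) =
        CyclotomicField.algebra p ℚ := Subsingleton.elim _ _
    rw [e]
    exact h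
  obtain ⟨k⟩ := Pool.Agent.Y978.WQ.cyc_aux p (CyclotomicField p ℚ) (hC := hcyc) hp2
  refine ⟨fun c hc0 hcp hcq => ⟨?_, fun v hv hs => ?_, ?_⟩, ?_⟩
  · -- rational points
    intro u hu he
    have hne : u 0 ≠ 0 ∨ u 1 ≠ 0 ∨ u 2 ≠ 0 := by
      by_contra hcon
      simp only [not_or, not_not] at hcon
      apply hu
      ext i
      fin_cases i
      · exact hcon.1
      · exact hcon.2.1
      · exact hcon.2.2
    refine ⟨⟨fun r h0 => ?_, fun r => ?_⟩, ?_⟩
    · apply hu
      ext i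
      have := congrFun h0 i
      simp only [Pi.zero_apply] at this
      exact_mod_cast this
    · have h1 := congrArg (fun t : ℚ => (t : ℚ_[(r : ℕ)])) he
      push_cast at h1
      exact h1
    · obtain ⟨δ, D, hT, hL⟩ := Pool.Agent.K3h90.TF.t_RATC p hp2 _ k c hc0 (u 0) (u 1) (u 2) hne he
      exact ⟨δ, D, hT, fun r => hL (r : ℕ)⟩
  · have h1 := furt p h5 _ k c hc0 hcp hcq v hv hs
    have h2 := furt1 p h5 _ k c hc0 hcp hcq v hv hs
    refine ⟨fun r hrp hW => ⟨fun hrc => ⟨(h2 r hrp hW hrc).1, (h2 r hrp hW hrc).2.1⟩, ?_⟩,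
      fun hc1 => ⟨(h1.2 hc1).1, fun r hrp hW hrc => ?_⟩⟩
    · rcases h1.1 r hrp hW with h3 | ⟨h3, h4⟩
      · exact Or.inl h3
      · exact Or.inr ⟨fun hrc => (h3 hrc).2.2, h4⟩
    · have h3 := (h2 r hrp hW hrc).2.2 hc1
      refine ⟨h3, fun hr2 => ?_⟩
      exact red_two p hpp.ne_zero c (by rw [← hr2]; exact hrc) r hr2 (v r) (hv.ne r) (hv.eq r) h3
  · intro hc1 r hrp hW hrc m g hg hns v hv hF
    exact no_points2 p h5 _ k c hc0 hcp hcq hc1 r hrp hW hrc m g hg hns v hv hF
  · obtain ⟨c, r, hc, hpc, hc1, hcW, hr, hpr, hrc, hrW, hns, hM⟩ := exists_ex p h5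
    refine ⟨c, r, hc, hpc.ne', hc1, hr, hpr, fun M => ?_⟩
    obtain ⟨e, he, hloc, hR⟩ := hM M
    have hvec : ∀ {R : Type} [CommRing R] (x y z : R), (x ≠ 0 ∨ y ≠ 0 ∨ z ≠ 0) →
        (![x, y, z] : Fin 3 → R) ≠ 0 := by
      intro R _ x y z h h0
      have h1 := congrFun h0 0
      have h2 := congrFun h0 1
      have h3 := congrFun h0 2
      simp only [Pi.zero_apply] at h1 h2 h3
      rcases h with h | h | h
      · exact h h1
      · exact h h2
      · exact h h3
    refine ⟨e, he, fun q _ => ?_, ?_, fun v hv hF => ?_⟩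
    · obtain ⟨x, y, z, w, hne, hw0, h1, h2⟩ := hloc q
      exact ⟨![x, y, z], w, hvec x y z hne, hw0, h1, h2⟩
    · obtain ⟨x, y, z, w, hne, hw0, h1, h2⟩ := hR
      exact ⟨![x, y, z], w, hvec x y z hne, hw0, h1, h2⟩
    · refine no_points p h5 _ k (c : ℤ) (by exact_mod_cast hc.ne_zero) ?_ ?_ hcW r hr (by omega)
        (by omega) hrW ?_ hns e v hv hF
      · intro h
        have h1 : p ∣ c := by exact_mod_cast h
        have := (Nat.prime_dvd_prime_iff_eq hpp hc).1 h1
        omega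
      · intro q hq hqc
        have h1 : q ∣ c := by exact_mod_cast hqc
        rw [(Nat.prime_dvd_prime_iff_eq hq hc).1 h1]
        exact hc1
      · intro h
        have h1 : r ∣ c := by exact_mod_cast h
        exact hrc ((Nat.prime_dvd_prime_iff_eq hr hc).1 h1)

end Pool.Agent.Results.MP_308fa9_nt.TwistedFermatCurves
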